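import Pool.Agent.J4H60.IF.Stm

/-!
(M) matching, project IF of helper60.
-/

set_option autoImplicit false

namespace Pool.Agent.J4H8.IF

open Finset Pool.Agent.J4H60.IF

/-- all triples -/
def T3 : Finset V := powersetCard 3 univ

lemma mem_T3 {X : V} : X ∈ T3 ↔ X.card = 3 := by simp [T3, mem_powersetCard]

lemma deg4 {X : V} (hX : X.card = 3) : (T3.filter (fun Y => Disjoint X Y)).card = 4 := by
  have : T3.filter (fun Y => Disjoint X Y) = powersetCard 3 Xᶜ := by
    ext Y
    simp only [mem_filter, mem_T3, mem_powersetCard]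
    rw [Finset.subset_compl_iff_disjoint_left]
    tauto
  rw [this, card_powersetCard, card_compl, hX]
  decide

lemma compl4 {X : V} (hX : X.card = 3) : Xᶜ.card = 4 := by
  rw [card_compl, hX]; rfl

/-- triples meeting `X` in one point -/
def NN (X : V) : Finset V := T3.filter (fun W => (W ∩ X).card = 1)

lemma mem_NN {X W : V} : W ∈ NN X ↔ W.card = 3 ∧ (W ∩ X).card = 1 := by
  simp [NN, mem_T3]

lemma sd2 {X W : V} (hW : W ∈ NN X) : (W \ X).card = 2 := by
  obtain ⟨h1, h2⟩ := mem_NN.1 hW
  have := card_sdiff_add_card_inter W X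
  omega

lemma NN_card {X : V} (hX : X.card = 3) : (NN X).card ≤ 18 := by
  have hsub : NN X ⊆ (X ×ˢ powersetCard 2 Xᶜ).image (fun p => insert p.1 p.2) := by
    intro W hW
    obtain ⟨x, hx⟩ := card_eq_one.1 (mem_NN.1 hW).2
    rw [mem_image]
    refine ⟨(x, W \ X), ?_, ?_⟩
    · rw [mem_product, mem_powersetCard]
      refine ⟨?_, ?_, sd2 hW⟩
      · have : x ∈ W ∩ X := by rw [hx]; simp
        exact (mem_inter.1 this).2
      · intro a ha
        rw [mem_sdiff] at ha
        exact mem_compl.2 ha.2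
    · change insert x (W \ X) = W
      have := Finset.sdiff_union_inter W X
      rw [hx] at this
      rw [insert_eq, union_comm, this]
  refine (card_le_card hsub).trans (card_image_le.trans ?_)
  rw [card_product, card_powersetCard, compl4 hX, hX]
  decide

lemma NN_deg {X W : V} (hX : X.card = 3) (hW : W ∈ NN X) :
    ((NN X).filter (fun Z => Disjoint W Z)).card = 2 := by
  have hc : (Xᶜ \ W).card = 2 := by
    have h1 := card_sdiff_add_card_inter Xᶜ W
    have h2 : Xᶜ ∩ W = W \ X := by
      ext a; simp [and_comm]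
    rw [h2, sd2 hW, compl4 hX] at h1
    omega
  have heq : (NN X).filter (fun Z => Disjoint W Z) = (X \ W).image (fun x => insert x (Xᶜ \ W)) := by
    ext Z
    rw [mem_filter, mem_image]
    constructor
    · rintro ⟨hZ, hd⟩
      obtain ⟨x, hx⟩ := card_eq_one.1 (mem_NN.1 hZ).2
      have hxm : x ∈ Z ∩ X := by rw [hx]; simp
      rw [mem_inter] at hxm
      refine ⟨x, ?_, ?_⟩
      · rw [mem_sdiff]
        exact ⟨hxm.2, fun h => (Finset.disjoint_left.1 hd) h hxm.1⟩
      · have h1 : Z \ X = Xᶜ \ W := by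
          apply eq_of_subset_of_card_le
          · intro a ha
            rw [mem_sdiff] at ha ⊢
            exact ⟨mem_compl.2 ha.2, fun h => (Finset.disjoint_left.1 hd) h ha.1⟩
          · rw [hc, sd2 hZ]
        rw [← h1]
        have := Finset.sdiff_union_inter Z X
        rw [hx] at this
        rw [insert_eq, union_comm, this]
    · rintro ⟨x, hx, rfl⟩
      rw [mem_sdiff] at hx
      have hxn : x ∉ Xᶜ \ W := by
        rw [mem_sdiff, mem_compl]
        exact fun h => h.1 hx.1
      refine ⟨mem_NN.2 ⟨?_, ?_⟩, ?_⟩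
      · rw [card_insert_of_notMem hxn, hc]
      · have : insert x (Xᶜ \ W) ∩ X = {x} := by
          ext a
          simp only [mem_inter, mem_insert, mem_sdiff, mem_compl, mem_singleton]
          constructor
          · rintro ⟨h | h, h'⟩
            · exact h
            · exact absurd h' h.1
          · rintro rfl
            exact ⟨Or.inl rfl, hx.1⟩
        rw [this, card_singleton]
      · rw [Finset.disjoint_left]
        intro a ha ha'
        rw [mem_insert, mem_sdiff] at ha'
        rcases ha' with rfl | h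
        · exact hx.2 ha
        · exact h.2 ha
  rw [heq, card_image_of_injOn]
  · have h1 := card_sdiff_add_card_inter X W
    have h2 := (mem_NN.1 hW).2
    rw [inter_comm] at h2
    omega
  · intro x hx y hy hxy
    rw [mem_coe, mem_sdiff] at hx hy
    change insert x (Xᶜ \ W) = insert y (Xᶜ \ W) at hxy
    have : x ∈ insert y (Xᶜ \ W) := by rw [← hxy]; exact mem_insert_self _ _
    rw [mem_insert, mem_sdiff, mem_compl] at this
    rcases this with h | h
    · exact h
    · exact absurd hx.1 h.1

lemma indep (C : Finset V) (hC : ∀ X ∈ C, X.card = 3) (hI : ∀ X ∈ C, ∀ Y ∈ C, ¬ Disjoint X Y) (X : V)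
    (hX : X.card = 3) (h : ∀ Y : V, Y.card = 3 → Disjoint X Y → Y ∈ C) : C.card ≤ 13 := by
  -- outside `N`
  have h1 : C \ NN X ⊆ powersetCard 3 Xᶜ := by
    intro Z hZ
    rw [mem_sdiff] at hZ
    have hZ3 := hC Z hZ.1
    rw [mem_powersetCard]
    refine ⟨?_, hZ3⟩
    rw [Finset.subset_compl_iff_disjoint_right]
    by_contra hnd
    rw [Finset.not_disjoint_iff_nonempty_inter] at hnd
    have hpos := hnd.card_pos
    have hne : (Z ∩ X).card ≠ 1 := fun hh => hZ.2 (mem_NN.2 ⟨hZ3, hh⟩)
    have h4 := compl4 hX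
    have h5 := card_sdiff_add_card_inter Z X
    have h6 := card_sdiff_add_card_inter Xᶜ Z
    have h7 : Xᶜ ∩ Z = Z \ X := by ext a; simp [and_comm]
    rw [h7] at h6
    have h8 : 3 ≤ (Xᶜ \ Z).card := by omega
    obtain ⟨Y, hY, hY3⟩ := exists_subset_card_eq h8
    have hYC : Y ∈ C := h Y hY3 (by
      rw [Finset.disjoint_left]
      intro a ha ha'
      have := hY ha'
      rw [mem_sdiff, mem_compl] at this
      exact this.1 ha)
    refine hI Y hYC Z hZ.1 ?_
    rw [Finset.disjoint_left]
    intro a ha ha'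
    have := hY ha
    rw [mem_sdiff] at this
    exact this.2 ha'
  have h2 : (C \ NN X).card ≤ 4 := by
    refine (card_le_card h1).trans ?_
    rw [card_powersetCard, compl4 hX]
    decide
  have h3 : (C ∩ NN X).card * 2 ≤ (NN X \ C).card * 2 := by
    refine card_mul_le_card_mul (fun Z W : V => Disjoint Z W) ?_ ?_
    · intro Z hZ
      rw [mem_inter] at hZ
      rw [← NN_deg hX hZ.2]
      apply card_le_card
      intro W hW
      rw [mem_filter] at hW
      rw [mem_bipartiteAbove, mem_sdiff]
      exact ⟨⟨hW.1, fun hWC => hI Z hZ.1 W hWC hW.2⟩, hW.2⟩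
    · intro W hW
      rw [mem_sdiff] at hW
      rw [← NN_deg hX hW.1]
      apply card_le_card
      intro Z hZ
      rw [mem_bipartiteBelow, mem_inter] at hZ
      rw [mem_filter]
      exact ⟨hZ.1.2, hZ.2.symm⟩
  have h4 := card_sdiff_add_card_inter C (NN X)
  have h5 := card_sdiff_add_card_inter (NN X) C
  have h6 := NN_card hX
  rw [inter_comm] at h5
  omega

/-- the degree into `S` -/
def dg (S : Finset V) (X : V) : ℕ := (S.filter (fun Y => Disjoint X Y)).card

lemma U_card : U.card = 64 := by decide +kernel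

lemma D_rows (A : Finset V) : D A = ∑ X ∈ A, (A.filter (fun Y => X ≠ Y ∧ Disjoint X Y)).card := by
  unfold D
  rw [card_filter, sum_product]
  refine sum_congr rfl fun X _ => ?_
  rw [card_filter]

theorem t_M : S_M := by
  intro A hA h3 hU hD
  set G := A.filter (fun X => X.card = 3) with hG
  have hGm : ∀ X, X ∈ G ↔ X ∈ A ∧ X.card = 3 := fun X => by rw [hG, mem_filter]
  have hGU : A.filter (fun X => ¬ X.card = 3) = U := by
    ext X
    rw [mem_filter, U, mem_filter]
    constructor
    · rintro ⟨h1, h2⟩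
      exact ⟨mem_univ _, by have := h3 X h1; omega⟩
    · rintro ⟨_, h2⟩
      exact ⟨hU (by rw [U, mem_filter]; exact ⟨mem_univ _, h2⟩), by omega⟩
  have hcard : G.card + (A.filter (fun X => ¬ X.card = 3)).card = A.card := card_filter_add_card_filter_not _
  rw [hGU, U_card, hA] at hcard
  have hG20 : G.card = 20 := by omega
  refine ⟨hG20, ?_⟩
  have hGT : G ⊆ T3 := fun X hX => mem_T3.2 ((hGm X).1 hX).2
  set C := T3 \ G with hC
  have hCm : ∀ X, X ∈ C ↔ X.card = 3 ∧ X ∉ G := fun X => by rw [hC, mem_sdiff, mem_T3]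
  have hC15 : C.card = 15 := by
    rw [hC, card_sdiff_of_subset hGT, hG20]
    simp [T3]
    decide
  have hd : ∀ X : V, X.card = 3 → dg G X + dg C X = 4 := by
    intro X hX
    rw [← deg4 hX]
    unfold dg
    rw [← card_union_of_disjoint, ← filter_union]
    · rw [hC, union_sdiff_of_subset hGT]
    · exact disjoint_filter_filter (by rw [hC]; exact disjoint_sdiff)
  have hs1 : ∑ X ∈ G, dg G X + ∑ X ∈ G, dg C X = 80 := by
    rw [← sum_add_distrib, sum_congr rfl (fun X hX => hd X ((hGm X).1 hX).2), sum_const, hG20]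
    rfl
  have hs2 : ∑ X ∈ C, dg G X + ∑ X ∈ C, dg C X = 60 := by
    rw [← sum_add_distrib, sum_congr rfl (fun X hX => hd X ((hCm X).1 hX).1), sum_const, hC15]
    rfl
  have hsym : ∑ X ∈ G, dg C X = ∑ X ∈ C, dg G X := by
    have := sum_card_bipartiteAbove_eq_sum_card_bipartiteBelow (s := G) (t := C) (fun Z W : V => Disjoint Z W)
    unfold bipartiteAbove bipartiteBelow at this
    unfold dg
    rw [this]
    refine sum_congr rfl fun X _ => ?_
    congr 1
    exact filter_congr fun Y _ => disjoint_comm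
  have hrow1 : ∀ X ∈ G, dg G X + 1 ≤ (A.filter (fun Y => X ≠ Y ∧ Disjoint X Y)).card := by
    intro X hX
    have hX3 := ((hGm X).1 hX).2
    have hn : Xᶜ ∉ G.filter (fun Y => Disjoint X Y) := by
      intro hh
      rw [mem_filter, hGm, compl4 hX3] at hh
      omega
    unfold dg
    rw [← card_insert_of_notMem hn]
    apply card_le_card
    intro Y hY
    rw [mem_insert] at hY
    rw [mem_filter]
    rcases hY with rfl | hY
    · refine ⟨hU ?_, ?_, disjoint_compl_right⟩
      · rw [U, mem_filter, compl4 hX3]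
        exact ⟨mem_univ _, le_rfl⟩
      · intro hh
        have := compl4 hX3
        rw [← hh] at this
        omega
    · rw [mem_filter] at hY
      refine ⟨((hGm Y).1 hY.1).1, ?_, hY.2⟩
      rintro rfl
      rw [disjoint_self_iff_empty] at hY
      rw [hY.2] at hX3
      simp at hX3
  have hrow2 : ∀ X ∈ G.image (fun X : V => Xᶜ), 1 ≤ (A.filter (fun Y => X ≠ Y ∧ Disjoint X Y)).card := by
    intro X hX
    rw [mem_image] at hX
    obtain ⟨Z, hZ, rfl⟩ := hX
    rw [Nat.one_le_iff_ne_zero, ← Nat.pos_iff_ne_zero, card_pos]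
    refine ⟨Z, ?_⟩
    rw [mem_filter]
    have hZ3 := ((hGm Z).1 hZ).2
    refine ⟨((hGm Z).1 hZ).1, ?_, disjoint_compl_left⟩
    intro hh
    have := compl4 hZ3
    rw [hh] at this
    omega
  have hDA : 40 + ∑ X ∈ G, dg G X ≤ D A := by
    rw [D_rows, ← sum_filter_add_sum_filter_not A (fun X => X.card = 3), hGU, ← hG]
    have h1 : ∑ X ∈ G, dg G X + 20 ≤ ∑ X ∈ G, (A.filter (fun Y => X ≠ Y ∧ Disjoint X Y)).card := by
      have := sum_le_sum hrow1
      rw [sum_add_distrib, sum_const, hG20] at this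
      simpa using this
    have h2 : 20 ≤ ∑ X ∈ U, (A.filter (fun Y => X ≠ Y ∧ Disjoint X Y)).card := by
      have hsub : G.image (fun X : V => Xᶜ) ⊆ U := by
        intro X hX
        rw [mem_image] at hX
        obtain ⟨Z, hZ, rfl⟩ := hX
        rw [U, mem_filter, compl4 ((hGm Z).1 hZ).2]
        exact ⟨mem_univ _, le_rfl⟩
      refine le_trans ?_ (sum_le_sum_of_subset hsub)
      have := sum_le_sum hrow2
      rw [sum_const, card_image_of_injective _ compl_injective, hG20] at this
      simpa using this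
    omega
  have hCC : ∑ X ∈ C, dg C X = 0 := by omega
  have hGG : ∑ X ∈ G, dg G X = 20 := by omega
  have hI : ∀ X ∈ C, ∀ Y ∈ C, ¬ Disjoint X Y := by
    intro X hX Y hY hd
    have h0 := (sum_eq_zero_iff.1 hCC) X hX
    unfold dg at h0
    rw [card_eq_zero, filter_eq_empty_iff] at h0
    exact h0 hY hd
  have hge : ∀ X ∈ G, 1 ≤ dg G X := by
    intro X hX
    by_contra hlt
    have h0 : dg G X = 0 := by omega
    unfold dg at h0
    rw [card_eq_zero, filter_eq_empty_iff] at h0
    have := indep C (fun Y hY => ((hCm Y).1 hY).1) hI X ((hGm X).1 hX).2 (fun Y hY hd =>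
      (hCm Y).2 ⟨hY, fun hYG => h0 hYG hd⟩)
    omega
  have heq : ∀ X ∈ G, 1 = dg G X := by
    refine (sum_eq_sum_iff_of_le hge).1 ?_
    rw [hGG, sum_const, hG20]
    rfl
  intro X hX
  have h1 := (heq X hX).symm
  unfold dg at h1
  obtain ⟨Y, hY⟩ := card_eq_one.1 h1
  have hm : ∀ Z, (Z ∈ G ∧ Disjoint X Z) ↔ Z = Y := by
    intro Z
    rw [← mem_filter (s := G) (p := fun Y => Disjoint X Y), hY, mem_singleton]
  exact ⟨Y, (hm Y).2 rfl, fun Z hZ => (hm Z).1 hZ⟩

end Pool.Agent.J4H8.IF
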